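import Pool.Agent.K3h75.ND.StmA

/-! Brick PB of the project ND: forms in `m + 1` variables and polynomials in `m` variables. -/

set_option autoImplicit false

namespace Pool.Agent.K3h12.ND

open MvPolynomial Pool.Agent.K3h75.ND

theorem degree_cons {m : ℕ} (a : ℕ) (e : Fin m →₀ ℕ) :
    (Finsupp.cons a e).degree = a + e.degree := by
  rw [Finsupp.degree_eq_sum, Finsupp.degree_eq_sum, Fin.sum_univ_succ, Finsupp.cons_zero]
  congr 1

theorem degree_tail {m : ℕ} (s : Fin (m + 1) →₀ ℕ) :
    s 0 + s.tail.degree = s.degree := by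
  conv_rhs => rw [← Finsupp.cons_tail s]
  rw [degree_cons]

theorem dh_monomial {R : Type} [CommRing R] {m : ℕ} (s : Fin (m + 1) →₀ ℕ) (c : R) :
    dh (monomial s c) = monomial s.tail c := by
  unfold dh
  rw [aeval_monomial, Finsupp.prod_fintype _ _ (fun i => pow_zero _), Fin.prod_univ_succ,
    monomial_eq, Finsupp.prod_fintype _ _ (fun i => pow_zero _)]
  simp [MvPolynomial.algebraMap_eq, Finsupp.tail_apply]

theorem dh_add {R : Type} [CommRing R] {m : ℕ} (F G : MvPolynomial (Fin (m + 1)) R) :
    dh (F + G) = dh F + dh G := by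
  unfold dh
  rw [map_add]

theorem dh_sum {R : Type} [CommRing R] {m : ℕ} {κ : Type} (T : Finset κ)
    (F : κ → MvPolynomial (Fin (m + 1)) R) : dh (∑ t ∈ T, F t) = ∑ t ∈ T, dh (F t) := by
  unfold dh
  rw [map_sum]

theorem coeff_dh {R : Type} [CommRing R] {m d : ℕ} (G : MvPolynomial (Fin (m + 1)) R)
    (hG : G.IsHomogeneous d) (e : Fin m →₀ ℕ) :
    (dh G).coeff e = if e.degree ≤ d then G.coeff (Finsupp.cons (d - e.degree) e) else 0 := by
  classical
  have h1 : dh G = ∑ s ∈ G.support, monomial s.tail (G.coeff s) := by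
    conv_lhs => rw [← support_sum_monomial_coeff G]
    rw [dh_sum]
    exact Finset.sum_congr rfl fun s _ => dh_monomial s _
  rw [h1, coeff_sum]
  simp only [coeff_monomial]
  have hkey : ∀ s ∈ G.support, s.tail = e → e.degree ≤ d ∧ s = Finsupp.cons (d - e.degree) e := by
    intro s hs hse
    have h2 : s.degree = d := by
      by_contra h3
      exact (mem_support_iff.1 hs) (hG.coeff_eq_zero h3)
    have h3 := degree_tail s
    rw [hse, h2] at h3
    refine ⟨by omega, ?_⟩
    rw [← Finsupp.cons_tail s, hse]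
    congr 1
    omega
  by_cases he : e.degree ≤ d
  · rw [if_pos he]
    rw [Finset.sum_eq_single (Finsupp.cons (d - e.degree) e)]
    · rw [Finsupp.tail_cons, if_pos rfl]
    · intro s hs hne
      rw [if_neg]
      intro hse
      exact hne (hkey s hs hse).2
    · intro hns
      rw [Finsupp.tail_cons, if_pos rfl]
      exact notMem_support_iff.1 hns
  · rw [if_neg he]
    refine Finset.sum_eq_zero fun s hs => ?_
    rw [if_neg]
    intro hse
    exact he (hkey s hs hse).1

theorem coeff_of_dh {R : Type} [CommRing R] {m d : ℕ} (G : MvPolynomial (Fin (m + 1)) R)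
    (hG : G.IsHomogeneous d) (s : Fin (m + 1) →₀ ℕ) :
    G.coeff s = if s.degree = d then (dh G).coeff s.tail else 0 := by
  split_ifs with h
  · have h1 := degree_tail s
    rw [coeff_dh G hG, if_pos (by omega)]
    congr 1
    have h2 : d - s.tail.degree = s 0 := by omega
    rw [h2, Finsupp.cons_tail]
  · exact hG.coeff_eq_zero h

theorem t_PB : S_PB := by
  classical
  intro O ι _ _ ω m d H
  refine ⟨?_, ?_, ?_⟩
  · rintro G ⟨hG, hc⟩
    refine ⟨?_, ?_⟩
    · unfold totalDegree
      refine Finset.sup_le fun e he => ?_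
      have h1 := mem_support_iff.1 he
      rw [coeff_dh G hG] at h1
      have h2 : e.degree ≤ d := by
        by_contra h3
        exact h1 (if_neg h3)
      exact h2
    · intro e i
      rw [coeff_dh G hG]
      split_ifs
      · exact hc _ _
      · rw [map_zero, Finsupp.zero_apply, abs_zero]
        exact_mod_cast Nat.zero_le H
  · rintro G ⟨hG, _⟩ G' ⟨hG', _⟩ h
    ext s
    rw [coeff_of_dh G hG, coeff_of_dh G' hG', h]
  · rintro f ⟨hf, hc⟩
    have hle : ∀ e ∈ f.support, e.degree ≤ d := by
      intro e he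
      exact (le_totalDegree he).trans hf
    obtain ⟨G, hGdef⟩ : ∃ G : MvPolynomial (Fin (m + 1)) O, G =
        ∑ e ∈ f.support, monomial (Finsupp.cons (d - e.degree) e) (f.coeff e) := ⟨_, rfl⟩
    have hG : G.IsHomogeneous d := by
      rw [hGdef]
      refine IsHomogeneous.sum _ _ _ fun e he => isHomogeneous_monomial _ ?_
      rw [degree_cons]
      have := hle e he
      omega
    have hdh : dh G = f := by
      rw [hGdef, dh_sum]
      conv_rhs => rw [← support_sum_monomial_coeff f]
      refine Finset.sum_congr rfl fun e _ => ?_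
      rw [dh_monomial, Finsupp.tail_cons]
    refine ⟨G, ⟨hG, fun s i => ?_⟩, hdh⟩
    rw [coeff_of_dh G hG, hdh]
    split_ifs
    · exact hc _ _
    · rw [map_zero, Finsupp.zero_apply, abs_zero]
      exact_mod_cast Nat.zero_le H

end Pool.Agent.K3h12.ND
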